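import Mathlib
import Pool.Agent.H529.E.Con44

/-!
Adapted from `Pool/Graph/R_seed8/Y823/G212/GapsInterval.lean` and `Results/MP_b51559_nt/ShortGaps212.lean`.

Short gaps (length at most `210`) between consecutive primes inside the intervals
`(n + 4, (n + 4) ^ (1 + ε))` and `(n + 4, 2 ^ (n + 4))`.
-/

set_option autoImplicit false

open Finset Filter

namespace Pool.Agent.H764.F.GapsInterval210

open Pool.Agent.H529.F (Dhl44Count)

/-- absorbing a constant factor into a small power -/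
lemma rpow_absorb (C : ℝ) {δ : ℝ} (hδ : 0 < δ) (a : ℝ) :
    ∀ᶠ x : ℝ in atTop, C * x ^ a ≤ x ^ (a + δ) := by
  filter_upwards [(tendsto_rpow_atTop hδ).eventually_ge_atTop C, eventually_gt_atTop (0 : ℝ)]
    with x h1 h2
  rw [Real.rpow_add h2, mul_comm (x ^ a)]
  exact mul_le_mul_of_nonneg_right h1 (Real.rpow_nonneg h2.le _)

/-- `p` is a prime and the next prime is at most `p + 210` -/
def Short (p : ℕ) : Prop :=
  p.Prime ∧ ∃ q : ℕ, q.Prime ∧ p < q ∧ q ≤ p + 210 ∧ ∀ r : ℕ, p < r → r < q → ¬ r.Prime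

lemma short_nth {n : ℕ} (hg : Nat.nth Nat.Prime (n + 1) - Nat.nth Nat.Prime n ≤ 210) :
    Short (Nat.nth Nat.Prime n) := by
  have hlt : Nat.nth Nat.Prime n < Nat.nth Nat.Prime (n + 1) :=
    Nat.nth_strictMono Nat.infinite_setOfPred_prime (Nat.lt_succ_self n)
  refine ⟨Nat.prime_nth_prime n, Nat.nth Nat.Prime (n + 1), Nat.prime_nth_prime _, hlt, by omega,
    ?_⟩
  intro r h1 h2 hr
  obtain ⟨k, hk⟩ : ∃ k, Nat.nth Nat.Prime k = r := ⟨Nat.count Nat.Prime r, Nat.nth_count hr⟩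
  rw [← hk] at h1 h2
  have h3 := (Nat.nth_strictMono Nat.infinite_setOfPred_prime).lt_iff_lt.1 h1
  have h4 := (Nat.nth_strictMono Nat.infinite_setOfPred_prime).lt_iff_lt.1 h2
  omega

open Classical in
/-- the count of short gaps beyond `y` and up to `x` -/
lemma core (H : Dhl44Count) (δ : ℝ) (hδ : 0 < δ) : ∀ᶠ x : ℝ in atTop, ∀ y : ℕ,
    x ^ (1 - δ) - y ≤ (((Icc 1 ⌊x⌋₊).filter (fun p : ℕ => y < p ∧ Short p)).card : ℝ) := by
  filter_upwards [Pool.Agent.H529.E.gaps210_of_count H δ hδ, eventually_ge_atTop (0 : ℝ)] with x hx hx0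
  intro y
  set G := (Icc 1 ⌊x⌋₊).filter (fun n : ℕ =>
      Nat.nth Nat.Prime n ≤ x ∧ Nat.nth Nat.Prime (n + 1) - Nat.nth Nat.Prime n ≤ 210) with hG
  set U := (Icc 1 ⌊x⌋₊).filter (fun p : ℕ => y < p ∧ Short p) with hU
  have hinj : Function.Injective (fun n => Nat.nth Nat.Prime n) :=
    (Nat.nth_strictMono Nat.infinite_setOfPred_prime).injective
  have h1 : (G.filter (fun n => y < Nat.nth Nat.Prime n)).card ≤ U.card := by
    apply card_le_card_of_injOn (fun n => Nat.nth Nat.Prime n)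
    · intro n hn
      rw [mem_coe, mem_filter, hG, mem_filter, mem_Icc] at hn
      obtain ⟨⟨⟨hn1, hn2⟩, hn3, hn4⟩, hn5⟩ := hn
      rw [mem_coe, hU, mem_filter, mem_Icc]
      exact ⟨⟨(Nat.prime_nth_prime n).one_le, Nat.le_floor hn3⟩, hn5, short_nth hn4⟩
    · intro a _ b _ h
      exact hinj h
  have h2 : (G.filter (fun n => ¬ y < Nat.nth Nat.Prime n)).card ≤ y := by
    have h3 : (G.filter (fun n => ¬ y < Nat.nth Nat.Prime n)).card ≤ (Icc 1 y).card := by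
      apply card_le_card_of_injOn (fun n => Nat.nth Nat.Prime n)
      · intro n hn
        rw [mem_coe, mem_filter] at hn
        rw [mem_coe, mem_Icc]
        exact ⟨(Nat.prime_nth_prime n).one_le, not_lt.1 hn.2⟩
      · intro a _ b _ h
        exact hinj h
    simpa using h3
  have h3 : G.card ≤ U.card + y := by
    rw [← card_filter_add_card_filter_not (s := G) (fun n => y < Nat.nth Nat.Prime n)]
    omega
  have h4 : (G.card : ℝ) ≤ U.card + y := by exact_mod_cast h3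
  linarith

open Classical in
/-- set form -/
lemma core' (H : Dhl44Count) (δ : ℝ) (hδ : 0 < δ) : ∀ᶠ x : ℝ in atTop, ∀ y : ℕ, ∀ z : ℝ, x + 210 < z →
    x ^ (1 - δ) - y ≤
      (Set.ncard {p : ℕ | y < p ∧ (p : ℝ) + 210 < z ∧ Short p} : ℝ) := by
  filter_upwards [core H δ hδ, eventually_ge_atTop (0 : ℝ)] with x hx hx0 y z hz
  refine (hx y).trans ?_
  have hfin : {p : ℕ | y < p ∧ (p : ℝ) + 210 < z ∧ Short p}.Finite := by
    apply (Set.finite_Iic ⌊z⌋₊).subset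
    intro p hp
    apply Nat.le_floor
    have := hp.2.1
    linarith
  have hsub : (((Icc 1 ⌊x⌋₊).filter (fun p : ℕ => y < p ∧ Short p) : Finset ℕ) : Set ℕ) ⊆
      {p : ℕ | y < p ∧ (p : ℝ) + 210 < z ∧ Short p} := by
    intro p hp
    rw [mem_coe, mem_filter, mem_Icc] at hp
    obtain ⟨⟨_, hp2⟩, hp3, hp4⟩ := hp
    have h5 : (p : ℝ) ≤ x := (Nat.le_floor_iff hx0).1 hp2
    exact ⟨hp3, by linarith, hp4⟩
  have h6 := Set.ncard_le_ncard hsub hfin
  rw [Set.ncard_coe_finset] at h6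
  exact_mod_cast h6

/-- intervals `(m, m ^ (1 + ε))` -/
theorem interval_rpow (H : Dhl44Count) (ε η : ℝ) (hη : 0 < η) (hηε : η < ε) : ∀ᶠ m : ℕ in atTop,
    (m : ℝ) ^ (1 + η) ≤
      (Set.ncard {p : ℕ | m < p ∧ (p : ℝ) + 210 < (m : ℝ) ^ (1 + ε) ∧ Short p} : ℝ) := by
  have hε : 0 < ε := hη.trans hηε
  set δ : ℝ := (ε - η) / (2 * (1 + ε)) with hδdef
  have hδ : 0 < δ := by apply div_pos <;> linarith
  have hkey : (1 + ε) * (1 - δ) = 1 + (ε + η) / 2 := by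
    rw [hδdef]; field_simp; ring
  have ht1 : Tendsto (fun m : ℕ => (m : ℝ) ^ (1 + ε) / 2) atTop atTop :=
    ((tendsto_rpow_atTop (by linarith)).comp tendsto_natCast_atTop_atTop).atTop_div_const two_pos
  have h4 := (tendsto_natCast_atTop_atTop (R := ℝ)).eventually
    (rpow_absorb 4 (δ := (ε - η) / 2) (by linarith) (1 + η))
  filter_upwards [ht1.eventually (core' H δ hδ), ht1.eventually_gt_atTop 210, h4,
    eventually_ge_atTop 1] with m h1 h2 h3 hm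
  have hm1 : (1 : ℝ) ≤ m := by exact_mod_cast hm
  have hm0 : (0 : ℝ) < m := by linarith
  refine le_trans ?_ (h1 m ((m : ℝ) ^ (1 + ε)) (by linarith))
  have h5 : 1 + η + (ε - η) / 2 = 1 + (ε + η) / 2 := by ring
  rw [h5] at h3
  have h6 : ((m : ℝ) ^ (1 + ε) / 2) ^ (1 - δ) = (m : ℝ) ^ (1 + (ε + η) / 2) / 2 ^ (1 - δ) := by
    rw [Real.div_rpow (Real.rpow_nonneg hm0.le _) two_pos.le, ← Real.rpow_mul hm0.le, hkey]
  have h7 : (2 : ℝ) ^ (1 - δ) ≤ 2 := by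
    calc (2 : ℝ) ^ (1 - δ) ≤ 2 ^ (1 : ℝ) :=
          Real.rpow_le_rpow_of_exponent_le one_le_two (by linarith)
      _ = 2 := Real.rpow_one 2
  have h8 : (m : ℝ) ^ (1 + (ε + η) / 2) / 2 ≤ (m : ℝ) ^ (1 + (ε + η) / 2) / 2 ^ (1 - δ) :=
    div_le_div_of_nonneg_left (Real.rpow_nonneg hm0.le _) (Real.rpow_pos_of_pos two_pos _) h7
  have h9 : (m : ℝ) ≤ (m : ℝ) ^ (1 + η) := by
    calc (m : ℝ) = (m : ℝ) ^ (1 : ℝ) := (Real.rpow_one _).symm
      _ ≤ (m : ℝ) ^ (1 + η) := Real.rpow_le_rpow_of_exponent_le hm1 (by linarith)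
  rw [h6]
  linarith

/-- intervals `(m, 2 ^ m)` -/
theorem interval_two_pow (H : Dhl44Count) (ε : ℝ) (hε : 0 < ε) : ∀ᶠ m : ℕ in atTop,
    (2 : ℝ) ^ ((1 - ε) * m) ≤
      (Set.ncard {p : ℕ | m < p ∧ (p : ℝ) + 210 < (2 : ℝ) ^ m ∧ Short p} : ℝ) := by
  set e : ℝ := min ε 1 with he
  have he0 : 0 < e := lt_min hε one_pos
  have he1 : e ≤ 1 := min_le_right _ _
  have heε : e ≤ ε := min_le_left _ _
  have hpow : Tendsto (fun m : ℕ => (2 : ℝ) ^ m) atTop atTop :=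
    tendsto_pow_atTop_atTop_of_one_lt one_lt_two
  have ht1 : Tendsto (fun m : ℕ => (2 : ℝ) ^ m / 2) atTop atTop :=
    hpow.atTop_div_const two_pos
  have h4 := hpow.eventually
    (rpow_absorb 4 (δ := e / 2) (by linarith) (1 - e))
  have h5 : ∀ᶠ m : ℕ in atTop, 4 * (m : ℝ) ≤ ((2 : ℝ) ^ m) ^ (1 / 2 : ℝ) := by
    have h := tendsto_pow_const_div_const_pow_of_one_lt 1 (r := Real.sqrt 2)
      (by rw [show (1 : ℝ) = Real.sqrt 1 by simp]; exact Real.sqrt_lt_sqrt zero_le_one one_lt_two)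
    filter_upwards [h.eventually (gt_mem_nhds (show (0 : ℝ) < 1 / 4 by norm_num))] with m hm
    have h6 : ((2 : ℝ) ^ m) ^ (1 / 2 : ℝ) = Real.sqrt 2 ^ m := by
      rw [Real.sqrt_eq_rpow, ← Real.rpow_natCast 2 m, ← Real.rpow_mul two_pos.le, mul_comm (m : ℝ),
        Real.rpow_mul two_pos.le, Real.rpow_natCast]
    rw [h6]
    have h7 : 0 < Real.sqrt 2 ^ m := by positivity
    rw [pow_one, div_lt_iff₀ h7] at hm
    linarith
  filter_upwards [ht1.eventually (core' H (e / 2) (by linarith)), ht1.eventually_gt_atTop 210, h4, h5,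
    eventually_ge_atTop 1] with m h1 h2 h3 h5 hm
  have hX : (0 : ℝ) < 2 ^ m := by positivity
  have hX1 : (1 : ℝ) ≤ 2 ^ m := one_le_pow₀ one_le_two
  refine le_trans ?_ (h1 m ((2 : ℝ) ^ m) (by linarith))
  have e1 : 1 - e + e / 2 = 1 - e / 2 := by ring
  rw [e1] at h3
  have h6 : ((2 : ℝ) ^ m / 2) ^ (1 - e / 2) = ((2 : ℝ) ^ m) ^ (1 - e / 2) / 2 ^ (1 - e / 2) := by
    rw [Real.div_rpow hX.le two_pos.le]
  have h7 : (2 : ℝ) ^ (1 - e / 2) ≤ 2 := by
    calc (2 : ℝ) ^ (1 - e / 2) ≤ 2 ^ (1 : ℝ) :=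
          Real.rpow_le_rpow_of_exponent_le one_le_two (by linarith)
      _ = 2 := Real.rpow_one 2
  have h8 : ((2 : ℝ) ^ m) ^ (1 - e / 2) / 2 ≤ ((2 : ℝ) ^ m) ^ (1 - e / 2) / 2 ^ (1 - e / 2) :=
    div_le_div_of_nonneg_left (Real.rpow_nonneg hX.le _) (Real.rpow_pos_of_pos two_pos _) h7
  have h9 : (2 : ℝ) ^ ((1 - ε) * m) ≤ ((2 : ℝ) ^ m) ^ (1 - e) := by
    rw [← Real.rpow_natCast 2 m, ← Real.rpow_mul two_pos.le]
    apply Real.rpow_le_rpow_of_exponent_le one_le_two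
    rw [mul_comm (m : ℝ)]
    exact mul_le_mul_of_nonneg_right (by linarith) (Nat.cast_nonneg m)
  have h10 : ((2 : ℝ) ^ m) ^ (1 / 2 : ℝ) ≤ ((2 : ℝ) ^ m) ^ (1 - e / 2) :=
    Real.rpow_le_rpow_of_exponent_le hX1 (by linarith)
  rw [h6]
  linarith

/-- `Short p` says that `p` is prime and that the next prime `q` satisfies `q ≤ p + 210`.
(1) For all `0 < η < ε` and all large `n` there are at least `(n + 4) ^ (1 + η)` primes `p` with
`Short p`, `n + 4 < p` and `p + 210 < (n + 4) ^ (1 + ε)`; in particular `p` and the next prime lie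
in the interval `(n + 4, (n + 4) ^ (1 + ε))`.  (2) For every `ε > 0` and all large `n` there are at
least `2 ^ ((1 - ε) (n + 4))` primes `p` with `Short p`, `n + 4 < p` and `p + 210 < 2 ^ (n + 4)`. -/
theorem shortGaps210 (H : Dhl44Count) :
    (∀ ε η : ℝ, 0 < η → η < ε → ∀ᶠ n : ℕ in atTop,
      ((n : ℝ) + 4) ^ (1 + η) ≤ (Set.ncard {p : ℕ | n + 4 < p ∧
        (p : ℝ) + 210 < ((n : ℝ) + 4) ^ (1 + ε) ∧ Short p} : ℝ)) ∧
    (∀ ε : ℝ, 0 < ε → ∀ᶠ n : ℕ in atTop,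
      (2 : ℝ) ^ ((1 - ε) * ((n : ℝ) + 4)) ≤ (Set.ncard {p : ℕ | n + 4 < p ∧
        p + 210 < 2 ^ (n + 4) ∧ Short p} : ℝ)) := by
  refine ⟨fun ε η hη hηε => ?_, fun ε hε => ?_⟩
  · have h := (tendsto_add_atTop_nat 4).eventually (interval_rpow H ε η hη hηε)
    filter_upwards [h] with n hn
    push_cast at hn
    exact hn
  · have h := (tendsto_add_atTop_nat 4).eventually (interval_two_pow H ε hε)
    filter_upwards [h] with n hn
    have hset : {p : ℕ | n + 4 < p ∧ (p : ℝ) + 210 < (2 : ℝ) ^ (n + 4) ∧ Short p} =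
        {p : ℕ | n + 4 < p ∧ p + 210 < 2 ^ (n + 4) ∧ Short p} := by
      ext p
      have : (p : ℝ) + 210 < (2 : ℝ) ^ (n + 4) ↔ p + 210 < 2 ^ (n + 4) := by
        exact_mod_cast Iff.rfl
      simp only [Set.mem_ofPred_eq, this]
    rw [hset] at hn
    push_cast at hn
    exact hn

end Pool.Agent.H764.F.GapsInterval210
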